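import Pool.Agent.P.MP_c18ddb_co.Defs

namespace Pool.Agent.P.MP_c18ddb_co

open Finset

section basic
variable {V : Type} [Fintype V] [DecidableEq V]

open Classical in
/-- the partition into single edges -/
theorem exists_partition (G : SimpleGraph V) : ∃ P, IsCliquePartition G P := by
  refine ⟨(univ.powersetCard 2).filter (fun K => G.IsClique (K : Set V)), ?_, ?_⟩
  · intro K hK
    simp only [mem_filter, mem_powersetCard] at hK
    exact ⟨hK.2, hK.1.2.ge⟩
  · intro u v huv
    refine ⟨{u, v}, ⟨?_, by simp, by simp⟩, ?_⟩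
    · simp only [mem_filter, mem_powersetCard, subset_univ, true_and]
      refine ⟨card_pair huv.ne, ?_⟩
      simpa using fun _ => huv
    · rintro K ⟨hK, hu, hv⟩
      simp only [mem_filter, mem_powersetCard, subset_univ, true_and] at hK
      symm
      apply eq_of_subset_of_card_le
      · intro x hx
        simp only [mem_insert, mem_singleton] at hx
        rcases hx with rfl | rfl <;> assumption
      · rw [hK.1, card_pair huv.ne]

theorem exists_opt (G : SimpleGraph V) : ∃ P, IsCliquePartition G P ∧ P.card = cp G := by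
  have : {k : ℕ | ∃ P : Finset (Finset V), IsCliquePartition G P ∧ P.card = k}.Nonempty := by
    obtain ⟨P, hP⟩ := exists_partition G
    exact ⟨P.card, P, hP, rfl⟩
  exact Nat.sInf_mem this

omit [Fintype V] [DecidableEq V] in
theorem cp_le {G : SimpleGraph V} {P : Finset (Finset V)} (hP : IsCliquePartition G P) :
    cp G ≤ P.card :=
  Nat.sInf_le ⟨P, hP, rfl⟩

theorem le_M {n : ℕ} (G : SimpleGraph (Fin n)) : cp G * cp Gᶜ ≤ M n := by
  apply le_csSup
  · apply Set.Finite.bddAbove
    have : {m : ℕ | ∃ G : SimpleGraph (Fin n), m = cp G * cp Gᶜ} =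
        Set.range (fun G : SimpleGraph (Fin n) => cp G * cp Gᶜ) := by
      ext m; simp [eq_comm]
    rw [this]
    exact Set.finite_range _
  · exact ⟨G, rfl⟩

theorem exists_M (n : ℕ) : ∃ G : SimpleGraph (Fin n), M n = cp G * cp Gᶜ := by
  have h : {m : ℕ | ∃ G : SimpleGraph (Fin n), m = cp G * cp Gᶜ} =
        Set.range (fun G : SimpleGraph (Fin n) => cp G * cp Gᶜ) := by
      ext m; simp [eq_comm]
  have := Nat.sSup_mem (s := {m : ℕ | ∃ G : SimpleGraph (Fin n), m = cp G * cp Gᶜ})
    ⟨_, ⊥, rfl⟩ (by rw [h]; exact (Set.finite_range _).bddAbove)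
  exact this

open Classical in
/-- weak duality: if every clique has ordered weight at most `2`, the ordered weight of all
edges is at most twice the clique partition number. -/
theorem weight_le (G : SimpleGraph V) (w : V → V → ℤ)
    (hw : ∀ K : Finset V, G.IsClique (K : Set V) → ∑ p ∈ K.offDiag, w p.1 p.2 ≤ 2) :
    ∑ p ∈ (univ : Finset (V × V)).filter (fun p => G.Adj p.1 p.2), w p.1 p.2 ≤ 2 * cp G := by
  obtain ⟨P, hP, hc⟩ := exists_opt G
  have h1 : (univ : Finset (V × V)).filter (fun p => G.Adj p.1 p.2) =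
      P.biUnion (fun K => K.offDiag) := by
    ext ⟨u, v⟩
    simp only [mem_filter, mem_univ, true_and, mem_biUnion, mem_offDiag]
    constructor
    · intro h
      obtain ⟨K, ⟨hK, hu, hv⟩, -⟩ := hP.2 u v h
      exact ⟨K, hK, hu, hv, h.ne⟩
    · rintro ⟨K, hK, hu, hv, hne⟩
      exact (hP.1 K hK).1 hu hv hne
  rw [h1, sum_biUnion]
  · calc ∑ K ∈ P, ∑ p ∈ K.offDiag, w p.1 p.2 ≤ ∑ K ∈ P, (2 : ℤ) :=
          sum_le_sum fun K hK => hw K (hP.1 K hK).1
      _ = 2 * cp G := by simp [hc, mul_comm]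
  · intro K hK L hL hKL
    rw [Function.onFun, disjoint_left]
    rintro ⟨u, v⟩ h1 h2
    simp only [mem_offDiag] at h1 h2
    have hadj : G.Adj u v := (hP.1 K hK).1 h1.1 h1.2.1 h1.2.2
    obtain ⟨K0, -, hu⟩ := hP.2 u v hadj
    exact hKL ((hu K ⟨hK, h1.1, h1.2.1⟩).trans (hu L ⟨hL, h2.1, h2.2.1⟩).symm)

end basic

end Pool.Agent.P.MP_c18ddb_co
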