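import Mathlib

namespace Pool.Agent.P.MP_c18ddb_co

open Finset BigOperators

theorem cov_one {X : Type} [Fintype X] [Nonempty X] (c : ℝ) (F G : X → ℝ)
    (hF : ∀ x y, F x - F y ≤ c) (hG : ∀ x y, G x - G y ≤ c) :
    (𝔼 x, F x) * (𝔼 x, G x) ≤ (𝔼 x, F x * G x) + c ^ 2 := by
  have hne : (univ : Finset X).Nonempty := univ_nonempty
  have up : ∀ (H : X → ℝ), (∀ x y, H x - H y ≤ c) → ∀ x, |H x - 𝔼 y, H y| ≤ c := by
    intro H hH x
    rw [abs_le]
    constructor
    · have : (𝔼 y, H y) ≤ 𝔼 _y : X, (H x + c) :=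
        expect_le_expect fun y _ => by linarith [hH y x]
      rw [expect_const hne] at this
      linarith
    · have : (𝔼 _y : X, (H x - c)) ≤ 𝔼 y, H y :=
        expect_le_expect fun y _ => by linarith [hH x y]
      rw [expect_const hne] at this
      linarith
  set μ := 𝔼 x, F x with hμ
  set ν := 𝔼 x, G x with hν
  have h1 : (𝔼 x, (μ * G x + ν * F x - μ * ν - c ^ 2)) ≤ 𝔼 x, F x * G x := by
    refine expect_le_expect fun x _ => ?_
    have a := up F hF x
    have b := up G hG x
    rw [← hμ] at a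
    rw [← hν] at b
    have : |(F x - μ) * (G x - ν)| ≤ c * c := by
      rw [abs_mul]
      exact mul_le_mul a b (abs_nonneg _) ((abs_nonneg _).trans a)
    have := (abs_le.1 this).1
    nlinarith
  rw [expect_sub_distrib, expect_sub_distrib, expect_add_distrib, ← mul_expect, ← mul_expect,
    expect_const hne, expect_const hne, ← hμ, ← hν] at h1
  nlinarith

theorem expect_cons {X : Type} [Fintype X] {m : ℕ} (f : (Fin (m + 1) → X) → ℝ) :
    (𝔼 ω, f ω) = 𝔼 x : X, 𝔼 y : Fin m → X, f (Fin.cons x y) := by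
  rw [← expect_product', univ_product_univ]
  exact (Fintype.expect_equiv (Fin.consEquiv (fun _ => X)) _ _ (fun _ => rfl)).symm

/-- covariance bound for two functions with bounded differences on a product space -/
theorem cov_bound {X : Type} [Fintype X] [Nonempty X] (c : ℝ) :
    ∀ (m : ℕ) (f g : (Fin m → X) → ℝ),
      (∀ ω ω' i, (∀ j, j ≠ i → ω j = ω' j) → f ω - f ω' ≤ c) →
      (∀ ω ω' i, (∀ j, j ≠ i → ω j = ω' j) → g ω - g ω' ≤ c) →
      (𝔼 ω, f ω) * (𝔼 ω, g ω) ≤ (𝔼 ω, f ω * g ω) + m * c ^ 2 := by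
  intro m
  induction m with
  | zero =>
    intro f g _ _
    simp
  | succ m ih =>
    intro f g hf hg
    have step : ∀ (h : (Fin (m + 1) → X) → ℝ),
        (∀ ω ω' i, (∀ j, j ≠ i → ω j = ω' j) → h ω - h ω' ≤ c) →
        (∀ x y : X, (𝔼 z : Fin m → X, h (Fin.cons x z)) - (𝔼 z : Fin m → X, h (Fin.cons y z))
          ≤ c) ∧
        ∀ x : X, ∀ (ω ω' : Fin m → X) i, (∀ j, j ≠ i → ω j = ω' j) →
          h (Fin.cons x ω) - h (Fin.cons x ω') ≤ c := by
      intro h hh
      constructor
      · intro x y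
        rw [← expect_sub_distrib]
        have : (𝔼 z : Fin m → X, (h (Fin.cons x z) - h (Fin.cons y z))) ≤ 𝔼 _z : Fin m → X, c := by
          refine expect_le_expect fun z _ => hh _ _ 0 ?_
          intro j hj
          obtain ⟨k, rfl⟩ := Fin.exists_succ_eq.2 hj
          simp
        rwa [expect_const univ_nonempty] at this
      · intro x ω ω' i hi
        refine hh _ _ i.succ ?_
        intro j hj
        refine Fin.cases (fun _ => ?_) (fun k hk => ?_) j hj
        · simp
        · simpa using hi k (fun e => hk (by rw [e]))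
    obtain ⟨f1, f2⟩ := step f hf
    obtain ⟨g1, g2⟩ := step g hg
    rw [expect_cons f, expect_cons g, expect_cons (fun ω => f ω * g ω)]
    have h1 := cov_one c _ _ f1 g1
    have h2 : (𝔼 x : X, (𝔼 z : Fin m → X, f (Fin.cons x z)) * (𝔼 z : Fin m → X, g (Fin.cons x z)))
        ≤ 𝔼 x : X, ((𝔼 z : Fin m → X, f (Fin.cons x z) * g (Fin.cons x z)) + m * c ^ 2) :=
      expect_le_expect fun x _ => ih _ _ (f2 x) (g2 x)
    rw [expect_add_distrib, expect_const univ_nonempty] at h2
    push_cast
    linarith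

end Pool.Agent.P.MP_c18ddb_co
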