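import Mathlib

namespace Pool.Agent.P.MP_c18ddb_co

/-- `P` is a clique partition of `G`: a finite family of vertex sets, each a clique of `G` with
at least two vertices (so at least one edge), such that every edge `uv` of `G` lies in exactly
one member of the family. -/
def IsCliquePartition {V : Type} (G : SimpleGraph V) (P : Finset (Finset V)) : Prop :=
  (∀ K ∈ P, G.IsClique (K : Set V) ∧ 2 ≤ K.card) ∧
    ∀ u v, G.Adj u v → ∃! K, K ∈ P ∧ u ∈ K ∧ v ∈ K

/-- The clique partition number: the least number of cliques in a clique partition of `G`. -/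
noncomputable def cp {V : Type} (G : SimpleGraph V) : ℕ :=
  sInf {k : ℕ | ∃ P : Finset (Finset V), IsCliquePartition G P ∧ P.card = k}

/-- `M n` is the maximum of `cp G * cp Gᶜ` over all simple graphs `G` on `n` vertices. -/
noncomputable def M (n : ℕ) : ℕ :=
  sSup {m : ℕ | ∃ G : SimpleGraph (Fin n), m = cp G * cp Gᶜ}

end Pool.Agent.P.MP_c18ddb_co
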