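import Pool.Agent.P.MP_c18ddb_co.Basic

namespace Pool.Agent.P.MP_c18ddb_co

open Finset

section template
variable {V : Type} [Fintype V] [DecidableEq V] {T : Type} [Fintype T] [DecidableEq T]

/-- number of vertices of type `i` in `K` -/
def cnt (t : V → T) (K : Finset V) (i : T) : ℕ := (K.filter (fun v => t v = i)).card

/-- ordered weight of a multiset of types -/
def Q (w : T → T → ℤ) (c : T → ℕ) : ℤ :=
  ∑ i, ∑ j, w i j * (c i : ℤ) * (c j : ℤ) - ∑ i, w i i * (c i : ℤ)

omit [Fintype V] [DecidableEq V] in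
theorem sum_cnt (t : V → T) (K : Finset V) (f : T → ℤ) :
    ∑ v ∈ K, f (t v) = ∑ i, f i * (cnt t K i : ℤ) := by
  rw [← sum_fiberwise (s := K) (g := t)]
  refine sum_congr rfl fun i _ => ?_
  rw [sum_congr rfl (g := fun _ => f i)]
  · simp [cnt, mul_comm]
  · intro v hv
    rw [(mem_filter.1 hv).2]

omit [Fintype V] in
theorem sum_offDiag_eq (t : V → T) (w : T → T → ℤ) (K : Finset V) :
    ∑ p ∈ K.offDiag, w (t p.1) (t p.2) = Q w (cnt t K) := by
  have h := sum_union (s₁ := K.diag) (s₂ := K.offDiag) (f := fun p : V × V => w (t p.1) (t p.2))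
    (disjoint_diag_offDiag K)
  rw [diag_union_offDiag, sum_product, sum_diag] at h
  have h2 : ∑ x ∈ K, ∑ y ∈ K, w (t x) (t y) =
      ∑ i, ∑ j, w i j * (cnt t K i : ℤ) * (cnt t K j : ℤ) := by
    have : ∀ x ∈ K, ∑ y ∈ K, w (t x) (t y) = ∑ j, w (t x) j * (cnt t K j : ℤ) :=
      fun x _ => sum_cnt t K (w (t x))
    rw [sum_congr rfl this, sum_cnt t K (fun i => ∑ j, w i j * (cnt t K j : ℤ))]
    refine sum_congr rfl fun i _ => ?_
    rw [sum_mul]
    refine sum_congr rfl fun j _ => by ring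
  have h3 := sum_cnt t K (fun i => w i i)
  simp only at h h3
  unfold Q
  rw [← h2, ← h3]
  linarith

theorem template_bound (G : SimpleGraph V) (t : V → T) (A : T → T → Prop) (w : T → T → ℤ)
    (hG : ∀ u v, u ≠ v → (G.Adj u v ↔ A (t u) (t v)))
    (hw : ∀ i j, ¬ A i j → w i j = 0)
    (hc : ∀ c : T → ℕ, (∀ i j, i ≠ j → ¬ A i j → c i = 0 ∨ c j = 0) →
      (∀ i, ¬ A i i → c i ≤ 1) → Q w c ≤ 2) :
    Q w (cnt t univ) ≤ 2 * cp G := by
  classical
  have h := weight_le G (fun u v => w (t u) (t v)) (by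
    intro K hK
    rw [sum_offDiag_eq]
    apply hc
    · intro i j hij hA
      by_contra hcon
      push Not at hcon
      obtain ⟨u, hu⟩ := card_pos.1 (Nat.pos_of_ne_zero hcon.1)
      obtain ⟨v, hv⟩ := card_pos.1 (Nat.pos_of_ne_zero hcon.2)
      simp only [mem_filter] at hu hv
      have hne : u ≠ v := by
        rintro rfl
        exact hij (hu.2.symm.trans hv.2)
      have := (hG u v hne).1 (hK hu.1 hv.1 hne)
      rw [hu.2, hv.2] at this
      exact hA this
    · intro i hA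
      apply card_le_one.2
      intro u hu v hv
      simp only [mem_filter] at hu hv
      by_contra hne
      have := (hG u v hne).1 (hK hu.1 hv.1 hne)
      rw [hu.2, hv.2] at this
      exact hA this)
  rw [← sum_offDiag_eq]
  refine le_of_eq_of_le ?_ h
  symm
  apply sum_subset
  · rintro ⟨u, v⟩ hp
    simp only [mem_filter, mem_univ, true_and] at hp
    simp [hp.ne]
  · rintro ⟨u, v⟩ h1 h2
    simp only [mem_filter, mem_univ, true_and, mem_offDiag] at h1 h2
    exact hw _ _ (fun hA => h2 ((hG u v h1).2 hA))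

end template

/-- adjacency pattern of the types 0 = K1, 1 = I1, 2 = I2, 3 = K2, 4 = Y1, 5 = Y2, 6 = spare -/
def adjT : Fin 7 → Fin 7 → Bool :=
  ![![true, true, false, false, true, true, false],
    ![true, false, true, false, false, false, false],
    ![false, true, false, true, false, false, false],
    ![false, false, true, true, true, true, false],
    ![true, false, false, true, false, true, false],
    ![true, false, false, true, true, false, false],
    ![false, false, false, false, false, false, false]]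

/-- dual weights for the graph -/
def w1 : Fin 7 → Fin 7 → ℤ :=
  ![![-1, 1, 0, 0, 1, 1, 0],
    ![1, 0, 1, 0, 0, 0, 0],
    ![0, 1, 0, 1, 0, 0, 0],
    ![0, 0, 1, -1, 1, 1, 0],
    ![1, 0, 0, 1, 0, -2, 0],
    ![1, 0, 0, 1, -2, 0, 0],
    ![0, 0, 0, 0, 0, 0, 0]]

/-- dual weights for the complement -/
def w2 : Fin 7 → Fin 7 → ℤ :=
  ![![0, 0, 1, 1, 0, 0, 0],
    ![0, -1, 0, 1, 1, 1, 0],
    ![1, 0, -1, 0, 1, 1, 0],
    ![1, 1, 0, 0, 0, 0, 0],
    ![0, 1, 1, 0, -2, 0, 0],
    ![0, 1, 1, 0, 0, -2, 0],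
    ![0, 0, 0, 0, 0, 0, 0]]

theorem adjT_symm : ∀ i j, adjT i j = adjT j i := by decide

theorem Q1_eq (c : Fin 7 → ℕ) : Q w1 c =
    2 * ((c 0 : ℤ) * c 1 + c 1 * c 2 + c 2 * c 3 + (c 0 + c 3) * (c 4 + c 5) - 2 * c 4 * c 5)
      - c 0 * (c 0 - 1) - c 3 * (c 3 - 1) := by
  simp [Q, w1, Fin.sum_univ_succ]
  ring

theorem Q2_eq (c : Fin 7 → ℕ) : Q w2 c =
    2 * ((c 0 : ℤ) * c 3 + c 0 * c 2 + c 1 * c 3 + (c 1 + c 2) * (c 4 + c 5))
      - c 1 * (c 1 - 1) - c 2 * (c 2 - 1) - 2 * c 4 * (c 4 - 1) - 2 * c 5 * (c 5 - 1) := by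
  simp [Q, w2, Fin.sum_univ_succ]
  ring

theorem key (c d : ℤ) : 2 * (c * d) - c * (c - 1) - 2 * d * (d - 1) ≤ 2 := by
  have h1 : 0 ≤ (c - d) * (c - d - 1) := by
    rcases le_or_gt (c - d) 0 with h | h
    · exact mul_nonneg_of_nonpos_of_nonpos h (by omega)
    · exact mul_nonneg h.le (by omega)
  have h2 : 0 ≤ (d - 1) * (d - 2) := by
    rcases le_or_gt d 1 with h | h
    · exact mul_nonneg_of_nonpos_of_nonpos (by omega) (by omega)
    · exact mul_nonneg (by omega) (by omega)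
  nlinarith

theorem clique1 (c : Fin 7 → ℕ) (h : ∀ i j, i ≠ j → ¬ (adjT i j = true) → c i = 0 ∨ c j = 0)
    (h1 : ∀ i, ¬ (adjT i i = true) → c i ≤ 1) : Q w1 c ≤ 2 := by
  rw [Q1_eq]
  have a1 := h1 1 (by decide)
  have a2 := h1 2 (by decide)
  have a4 := h1 4 (by decide)
  have a5 := h1 5 (by decide)
  have b02 := h 0 2 (by decide) (by decide)
  have b03 := h 0 3 (by decide) (by decide)
  have b13 := h 1 3 (by decide) (by decide)
  have b14 := h 1 4 (by decide) (by decide)
  have b15 := h 1 5 (by decide) (by decide)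
  have b24 := h 2 4 (by decide) (by decide)
  have b25 := h 2 5 (by decide) (by decide)
  have k00 := key (c 0) 0
  have k01 := key (c 0) 1
  have k02 := key (c 0) 2
  have k30 := key (c 3) 0
  have k31 := key (c 3) 1
  have k32 := key (c 3) 2
  generalize c 0 = x0 at *
  generalize c 1 = x1 at *
  generalize c 2 = x2 at *
  generalize c 3 = x3 at *
  generalize c 4 = x4 at *
  generalize c 5 = x5 at *
  interval_cases x1 <;> interval_cases x2 <;> interval_cases x4 <;> interval_cases x5 <;>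
    rcases b03 with rfl | rfl <;> simp_all <;> nlinarith

theorem clique2 (c : Fin 7 → ℕ) (h : ∀ i j, i ≠ j → ¬ ¬ (adjT i j = true) → c i = 0 ∨ c j = 0)
    (h1 : ∀ i, ¬ ¬ (adjT i i = true) → c i ≤ 1) : Q w2 c ≤ 2 := by
  rw [Q2_eq]
  have a0 := h1 0 (by decide)
  have a3 := h1 3 (by decide)
  have b01 := h 0 1 (by decide) (by decide)
  have b12 := h 1 2 (by decide) (by decide)
  have b23 := h 2 3 (by decide) (by decide)
  have b04 := h 0 4 (by decide) (by decide)
  have b05 := h 0 5 (by decide) (by decide)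
  have b34 := h 3 4 (by decide) (by decide)
  have b35 := h 3 5 (by decide) (by decide)
  have b45 := h 4 5 (by decide) (by decide)
  have k14 := key (c 1) (c 4)
  have k15 := key (c 1) (c 5)
  have k24 := key (c 2) (c 4)
  have k25 := key (c 2) (c 5)
  have k11 := key (c 1) 1
  have k21 := key (c 2) 1
  generalize c 0 = x0 at *
  generalize c 1 = x1 at *
  generalize c 2 = x2 at *
  generalize c 3 = x3 at *
  generalize c 4 = x4 at *
  generalize c 5 = x5 at *
  interval_cases x0 <;> interval_cases x3 <;> rcases b12 with rfl | rfl <;>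
    rcases b45 with rfl | rfl <;> simp_all

/-- type of the vertex `v` when the parts have sizes 3t, 3t, 3t, 3t, t, t and a remainder -/
def typ (t v : ℕ) : Fin 7 :=
  if v < 3 * t then 0 else if v < 6 * t then 1 else if v < 9 * t then 2 else
  if v < 12 * t then 3 else if v < 13 * t then 4 else if v < 14 * t then 5 else 6

theorem card_Ico_fin (n a b : ℕ) (hb : b ≤ n) :
    ((univ : Finset (Fin n)).filter (fun v => a ≤ v.val ∧ v.val < b)).card = b - a := by
  rw [← Nat.card_Ico a b]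
  apply card_bij (fun v _ => v.val)
  · intro v hv
    simpa using hv
  · intro u _ v _ h
    exact Fin.ext h
  · intro x hx
    simp only [mem_Ico] at hx
    exact ⟨⟨x, by omega⟩, by simpa using hx, rfl⟩

theorem cnt_typ (n t : ℕ) (i : Fin 7) (a b : ℕ) (hb : b ≤ n)
    (hi : ∀ v, typ t v = i ↔ a ≤ v ∧ v < b) :
    cnt (fun v : Fin n => typ t v.val) univ i = b - a := by
  rw [← card_Ico_fin n a b hb]
  unfold cnt
  congr 1
  ext v
  simp [hi]

/-- the graph on `Fin n` -/
def extG (n t : ℕ) : SimpleGraph (Fin n) where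
  Adj u v := u ≠ v ∧ adjT (typ t u.val) (typ t v.val) = true
  symm := ⟨fun u v h => ⟨h.1.symm, by rw [adjT_symm]; exact h.2⟩⟩
  loopless := ⟨fun u h => h.1 rfl⟩

theorem ext_bounds (n t : ℕ) (h : 14 * t ≤ n) :
    28 * t ^ 2 + 3 * t ≤ cp (extG n t) ∧ 28 * t ^ 2 + 5 * t ≤ cp (extG n t)ᶜ := by
  have c0 := cnt_typ n t 0 0 (3 * t) (by omega) (by
    intro v; unfold typ; split_ifs <;> simp <;> omega)
  have c1 := cnt_typ n t 1 (3 * t) (6 * t) (by omega) (by
    intro v; unfold typ; split_ifs <;> simp <;> omega)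
  have c2 := cnt_typ n t 2 (6 * t) (9 * t) (by omega) (by
    intro v; unfold typ; split_ifs <;> simp <;> omega)
  have c3 := cnt_typ n t 3 (9 * t) (12 * t) (by omega) (by
    intro v; unfold typ; split_ifs <;> simp <;> omega)
  have c4 := cnt_typ n t 4 (12 * t) (13 * t) (by omega) (by
    intro v; unfold typ; split_ifs <;> simp <;> omega)
  have c5 := cnt_typ n t 5 (13 * t) (14 * t) (by omega) (by
    intro v; unfold typ; split_ifs <;> simp <;> omega)
  have e0 : (3 * t - 0 : ℕ) = 3 * t := by omega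
  have e1 : (6 * t - 3 * t : ℕ) = 3 * t := by omega
  have e2 : (9 * t - 6 * t : ℕ) = 3 * t := by omega
  have e3 : (12 * t - 9 * t : ℕ) = 3 * t := by omega
  have e4 : (13 * t - 12 * t : ℕ) = t := by omega
  have e5 : (14 * t - 13 * t : ℕ) = t := by omega
  rw [e0] at c0; rw [e1] at c1; rw [e2] at c2; rw [e3] at c3; rw [e4] at c4; rw [e5] at c5
  have h1 := template_bound (extG n t) (fun v : Fin n => typ t v.val)
    (fun i j => adjT i j = true) w1 (fun u v huv => by simp [extG, huv]) (by decide) clique1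
  have h2 := template_bound (extG n t)ᶜ (fun v : Fin n => typ t v.val)
    (fun i j => ¬ (adjT i j = true)) w2 (fun u v huv => by simp [extG, huv]) (by decide) clique2
  rw [Q1_eq, c0, c1, c2, c3, c4, c5] at h1
  rw [Q2_eq, c0, c1, c2, c3, c4, c5] at h2
  push_cast at h1 h2
  constructor
  · zify; nlinarith
  · zify; nlinarith

theorem lower_M (n : ℕ) : (n : ℝ) ^ 4 / 49 - 8 / 7 * (n : ℝ) ^ 3 ≤ M n := by
  obtain ⟨h1, h2⟩ := ext_bounds n (n / 14) (Nat.mul_div_le n 14)
  have h3 := le_M (extG n (n / 14))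
  set t := n / 14 with ht
  have h4 : 784 * t ^ 4 ≤ M n := by
    calc 784 * t ^ 4 = (28 * t ^ 2) * (28 * t ^ 2) := by ring
      _ ≤ cp (extG n t) * cp (extG n t)ᶜ := Nat.mul_le_mul (by omega) (by omega)
      _ ≤ M n := h3
  have h5 : (784 : ℝ) * (t : ℝ) ^ 4 ≤ M n := by exact_mod_cast h4
  have h6 : (n : ℝ) ≤ 14 * t + 14 := by
    have : n ≤ 14 * t + 14 := by omega
    exact_mod_cast this
  have hn : (0 : ℝ) ≤ n := Nat.cast_nonneg n
  have htn : (0 : ℝ) ≤ t := Nat.cast_nonneg t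
  rcases le_or_gt (n : ℝ) 14 with h | h
  · have : (n : ℝ) ^ 4 / 49 - 8 / 7 * (n : ℝ) ^ 3 ≤ 0 := by
      have : (n : ℝ) ^ 4 = n ^ 3 * n := by ring
      have h7 : (0 : ℝ) ≤ n ^ 3 := by positivity
      nlinarith
    have : (0 : ℝ) ≤ M n := Nat.cast_nonneg _
    linarith
  · have h7 : ((n : ℝ) / 14 - 1) ^ 4 ≤ (t : ℝ) ^ 4 :=
      pow_le_pow_left₀ (by linarith) (by linarith) 4
    have h8 : (n : ℝ) ^ 4 / 49 - 8 / 7 * (n : ℝ) ^ 3 ≤ 784 * ((n : ℝ) / 14 - 1) ^ 4 := by
      nlinarith [sq_nonneg (n : ℝ)]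
    linarith

end Pool.Agent.P.MP_c18ddb_co
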