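import Pool.Agent.P.MP_c18ddb_co.Basic
import Pool.Agent.P.MP_c18ddb_co.Cov

namespace Pool.Agent.P.MP_c18ddb_co

open Finset BigOperators

section lemmas
variable {V W : Type} [Fintype V] [DecidableEq V] [Fintype W] [DecidableEq W]

/-- subadditivity over an edge decomposition -/
theorem cp_le_sum {ι : Type} [Fintype ι] (G : SimpleGraph V) (H : ι → SimpleGraph V)
    (hle : ∀ k, H k ≤ G) (hu : ∀ u v, G.Adj u v → ∃! k, (H k).Adj u v) :
    cp G ≤ ∑ k, cp (H k) := by
  classical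
  choose P hP hc using fun k => exists_opt (H k)
  have : IsCliquePartition G (univ.biUnion P) := by
    constructor
    · intro K hK
      obtain ⟨k, -, hk⟩ := mem_biUnion.1 hK
      exact ⟨((hP k).1 K hk).1.mono (hle k), ((hP k).1 K hk).2⟩
    · intro u v huv
      obtain ⟨k, hk, hk'⟩ := hu u v huv
      obtain ⟨K, ⟨hK, huK, hvK⟩, hK'⟩ := (hP k).2 u v hk
      refine ⟨K, ⟨mem_biUnion.2 ⟨k, mem_univ _, hK⟩, huK, hvK⟩, ?_⟩
      rintro L ⟨hL, huL, hvL⟩
      obtain ⟨l, -, hl⟩ := mem_biUnion.1 hL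
      have : l = k := hk' l (((hP l).1 L hl).1 huL hvL huv.ne)
      subst this
      exact hK' L ⟨hl, huL, hvL⟩
  calc cp G ≤ (univ.biUnion P).card := cp_le this
    _ ≤ ∑ k, (P k).card := card_biUnion_le
    _ = ∑ k, cp (H k) := sum_congr rfl fun k _ => hc k

omit [Fintype V] in
/-- trivial bound by a set of ordered pairs containing one orientation of every edge -/
theorem cp_le_card (G : SimpleGraph V) (S : Finset (V × V))
    (hS : ∀ u v, G.Adj u v → (u, v) ∈ S ∨ (v, u) ∈ S) : cp G ≤ S.card := by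
  classical
  have : IsCliquePartition G ((S.filter (fun p => G.Adj p.1 p.2)).image
      (fun p => ({p.1, p.2} : Finset V))) := by
    constructor
    · intro K hK
      obtain ⟨⟨u, v⟩, hp, rfl⟩ := mem_image.1 hK
      have h := (mem_filter.1 hp).2
      refine ⟨by simpa using fun _ => h, (card_pair h.ne).ge⟩
    · intro u v huv
      refine ⟨{u, v}, ⟨?_, by simp, by simp⟩, ?_⟩
      · rcases hS u v huv with h | h
        · exact mem_image.2 ⟨(u, v), mem_filter.2 ⟨h, huv⟩, rfl⟩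
        · exact mem_image.2 ⟨(v, u), mem_filter.2 ⟨h, huv.symm⟩, pair_comm _ _⟩
      · rintro K ⟨hK, hu, hv⟩
        obtain ⟨⟨x, y⟩, hp, rfl⟩ := mem_image.1 hK
        have h := (mem_filter.1 hp).2
        symm
        apply eq_of_subset_of_card_le
        · intro z hz
          simp only [mem_insert, mem_singleton] at hz
          rcases hz with rfl | rfl <;> assumption
        · rw [card_pair h.ne, card_pair huv.ne]
  exact (cp_le this).trans (card_image_le.trans (card_filter_le _ _))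

/-- pulling a partition back along a map that is injective on the support -/
theorem cp_le_of_pull (G : SimpleGraph V) (H : SimpleGraph W) (S : W → Prop) (f : W → V)
    (hinj : ∀ u v, S u → S v → f u = f v → u = v)
    (hH : ∀ u v, H.Adj u v ↔ S u ∧ S v ∧ G.Adj (f u) (f v)) : cp H ≤ cp G := by
  classical
  obtain ⟨P, hP, hc⟩ := exists_opt G
  let φ : Finset V → Finset W := fun K => univ.filter (fun w => S w ∧ f w ∈ K)
  have : IsCliquePartition H ((P.image φ).filter (fun K => 2 ≤ K.card)) := by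
    constructor
    · intro K hK
      obtain ⟨hK1, hK2⟩ := mem_filter.1 hK
      refine ⟨?_, hK2⟩
      obtain ⟨L, hL, rfl⟩ := mem_image.1 hK1
      intro u hu v hv huv
      simp only [φ, coe_filter, mem_univ, true_and, Set.mem_ofPred_eq] at hu hv
      exact (hH u v).2 ⟨hu.1, hv.1, (hP.1 L hL).1 hu.2 hv.2
        (fun e => huv (hinj u v hu.1 hv.1 e))⟩
    · intro u v huv
      obtain ⟨hu, hv, hadj⟩ := (hH u v).1 huv
      obtain ⟨K, ⟨hK, huK, hvK⟩, hK'⟩ := hP.2 _ _ hadj
      have hu' : u ∈ φ K := by simp [φ, hu, huK]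
      have hv' : v ∈ φ K := by simp [φ, hv, hvK]
      refine ⟨φ K, ⟨mem_filter.2 ⟨mem_image_of_mem _ hK, ?_⟩, hu', hv'⟩, ?_⟩
      · exact one_lt_card.2 ⟨u, hu', v, hv', huv.ne⟩
      · rintro L ⟨hL, huL, hvL⟩
        obtain ⟨L', hL', rfl⟩ := mem_image.1 (mem_filter.1 hL).1
        simp only [φ, mem_filter, mem_univ, true_and] at huL hvL
        rw [hK' L' ⟨hL', huL.2, hvL.2⟩]
  exact (cp_le this).trans ((card_filter_le _ _).trans (card_image_le.trans hc.le))

/-- the graph with the edges of `G` that satisfy a symmetric condition -/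
def sub (G : SimpleGraph V) (R : V → V → Prop) (hR : ∀ u v, R u v → R v u) : SimpleGraph V where
  Adj u v := G.Adj u v ∧ R u v
  symm := ⟨fun u v h => ⟨h.1.symm, hR u v h.2⟩⟩
  loopless := ⟨fun _ h => h.1.ne rfl⟩

theorem cp_le_split (G : SimpleGraph V) (R : V → V → Prop) (hR : ∀ u v, R u v → R v u) :
    cp G ≤ cp (sub G R hR) + cp (sub G (fun u v => ¬ R u v) (fun u v h h' => h (hR v u h'))) := by
  have := cp_le_sum G (fun b : Bool => if b then sub G R hR else
    sub G (fun u v => ¬ R u v) (fun u v h h' => h (hR v u h')))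
    (by
      intro b u v h
      cases b
      · exact h.1
      · exact h.1)
    (by
      intro u v h
      by_cases hr : R u v
      · refine ⟨true, ⟨h, hr⟩, ?_⟩
        intro b hb
        cases b
        · exact absurd hr hb.2
        · rfl
      · refine ⟨false, ⟨h, hr⟩, ?_⟩
        intro b hb
        cases b
        · rfl
        · exact absurd hb.2 hr)
  simpa using this

/-- changing the edges at one vertex changes `cp` by at most the number of vertices -/
theorem cp_le_of_agree (G H : SimpleGraph V) (i : V)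
    (h : ∀ u v, u ≠ i → v ≠ i → (G.Adj u v ↔ H.Adj u v)) :
    cp G ≤ cp H + Fintype.card V := by
  refine (cp_le_split G (fun u v => u ≠ i ∧ v ≠ i) (fun u v h => h.symm)).trans
    (Nat.add_le_add ?_ ?_)
  · refine cp_le_of_pull H _ (fun u => u ≠ i) id (fun u v _ _ e => e) ?_
    intro u v
    constructor
    · rintro ⟨h1, h2, h3⟩
      exact ⟨h2, h3, (h u v h2 h3).1 h1⟩
    · rintro ⟨h2, h3, h1⟩
      exact ⟨(h u v h2 h3).2 h1, h2, h3⟩
  · refine (cp_le_card _ (univ.image (fun v => (i, v))) ?_).trans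
      (card_image_le.trans (by simp))
    rintro u v ⟨-, h2⟩
    by_cases hu : u = i
    · left; subst hu; simp
    · right
      have : v = i := by
        by_contra hv
        exact h2 ⟨hu, hv⟩
      subst this; simp

theorem cp_le_sq (G : SimpleGraph V) : cp G ≤ Fintype.card V ^ 2 :=
  (cp_le_card G univ (fun _ _ _ => Or.inl (mem_univ _))).trans (by simp [sq])

end lemmas

section design
variable {m p : ℕ} [NeZero p]

/-- the graph induced on a transversal -/
def trans (G : SimpleGraph (Fin m × ZMod p)) (ω : Fin m → ZMod p) : SimpleGraph (Fin m) :=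
  G.comap (fun i => (i, ω i))

omit [NeZero p] in
theorem trans_compl (G : SimpleGraph (Fin m × ZMod p)) (ω : Fin m → ZMod p) :
    trans Gᶜ ω = (trans G ω)ᶜ := by
  ext u v
  simp only [trans, SimpleGraph.comap_adj, SimpleGraph.compl_adj, ne_eq, Prod.mk.injEq]
  constructor
  · rintro ⟨h1, h2⟩
    exact ⟨fun e => h1 (by subst e; exact ⟨rfl, rfl⟩), h2⟩
  · rintro ⟨h1, h2⟩
    exact ⟨fun e => h1 e.1, h2⟩

theorem design_bound (hp : ∀ i j : Fin m, i ≠ j → IsUnit ((i.val : ZMod p) - (j.val : ZMod p)))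
    (G : SimpleGraph (Fin m × ZMod p)) (t : Fin m → ZMod p) :
    cp G ≤ ∑ ab : ZMod p × ZMod p, cp (trans G (fun i => ab.1 + ab.2 * (i.val : ZMod p) + t i))
      + m * p ^ 2 := by
  refine (cp_le_split G (fun u v => u.1 ≠ v.1) (fun u v h => h.symm)).trans
    (Nat.add_le_add ?_ ?_)
  · let H : ZMod p × ZMod p → SimpleGraph (Fin m × ZMod p) := fun ab =>
      sub G (fun u v => u.2 = ab.1 + ab.2 * (u.1.val : ZMod p) + t u.1 ∧
        v.2 = ab.1 + ab.2 * (v.1.val : ZMod p) + t v.1) (fun u v h => h.symm)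
    refine (cp_le_sum _ H ?_ ?_).trans (sum_le_sum fun ab _ => ?_)
    · rintro ab ⟨i, x⟩ ⟨j, y⟩ ⟨h1, h2, h3⟩
      refine ⟨h1, ?_⟩
      intro e
      simp only at e h2 h3
      subst e
      exact h1.ne (by rw [h2, h3])
    · rintro ⟨i, x⟩ ⟨j, y⟩ ⟨h1, h2⟩
      simp only at h2
      obtain ⟨d, hd⟩ := hp i j h2
      have hd1 : (d⁻¹ : (ZMod p)ˣ) * ((i.val : ZMod p) - (j.val : ZMod p)) = 1 := by
        rw [← hd]; simp
      set e : ZMod p := ((d⁻¹ : (ZMod p)ˣ) : ZMod p) with he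
      refine ⟨(x - t i - (x - t i - (y - t j)) * e * i.val, (x - t i - (y - t j)) * e),
        ⟨h1, ?_, ?_⟩, ?_⟩
      · simp only; ring
      · simp only
        linear_combination (x - t i - (y - t j)) * hd1
      · rintro ⟨a, b⟩ ⟨-, h3, h4⟩
        simp only at h3 h4
        have hb : b = (x - t i - (y - t j)) * e := by
          rw [h3, h4]
          linear_combination (-b) * hd1
        refine Prod.ext ?_ hb
        simp only
        rw [← hb, h3]; ring
    · refine cp_le_of_pull _ _ (fun u => u.2 = ab.1 + ab.2 * (u.1.val : ZMod p) + t u.1)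
        Prod.fst ?_ ?_
      · rintro ⟨i, x⟩ ⟨j, y⟩ h1 h2 e
        simp only at h1 h2 e
        subst e
        rw [h1, h2]
      · rintro ⟨i, x⟩ ⟨j, y⟩
        simp only [H, sub, trans, SimpleGraph.comap_adj]
        constructor
        · rintro ⟨h1, rfl, rfl⟩
          exact ⟨rfl, rfl, h1⟩
        · rintro ⟨rfl, rfl, h1⟩
          exact ⟨h1, rfl, rfl⟩
  · refine (cp_le_card _ (univ.image (fun q : Fin m × ZMod p × ZMod p =>
      ((q.1, q.2.1), (q.1, q.2.2)))) ?_).trans (card_image_le.trans (by simp [sq]))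
    rintro ⟨i, x⟩ ⟨j, y⟩ ⟨-, h2⟩
    left
    simp only [ne_eq, not_not] at h2
    subst h2
    exact mem_image.2 ⟨(i, x, y), mem_univ _, rfl⟩

theorem avg_bound (hp : ∀ i j : Fin m, i ≠ j → IsUnit ((i.val : ZMod p) - (j.val : ZMod p)))
    (G : SimpleGraph (Fin m × ZMod p)) :
    (cp G : ℝ) ≤ (p : ℝ) ^ 2 * ((𝔼 ω : Fin m → ZMod p, (cp (trans G ω) : ℝ)) + m) := by
  have h1 : (𝔼 _t : Fin m → ZMod p, (cp G : ℝ)) ≤ 𝔼 t : Fin m → ZMod p,
      ((∑ ab : ZMod p × ZMod p,
        (cp (trans G (fun i => ab.1 + ab.2 * (i.val : ZMod p) + t i)) : ℝ)) + m * p ^ 2) := by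
    refine expect_le_expect fun t _ => ?_
    exact_mod_cast design_bound hp G t
  rw [expect_const univ_nonempty, expect_add_distrib, expect_const univ_nonempty,
    expect_sum_comm] at h1
  have h2 : ∀ ab : ZMod p × ZMod p, (𝔼 t : Fin m → ZMod p,
      (cp (trans G (fun i => ab.1 + ab.2 * (i.val : ZMod p) + t i)) : ℝ)) =
      𝔼 ω : Fin m → ZMod p, (cp (trans G ω) : ℝ) := by
    intro ab
    exact Fintype.expect_equiv (Equiv.addLeft (fun i : Fin m => ab.1 + ab.2 * (i.val : ZMod p)))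
      _ _ (fun _ => rfl)
  rw [sum_congr rfl (fun ab _ => h2 ab)] at h1
  simp only [sum_const, card_univ, Fintype.card_prod, ZMod.card, nsmul_eq_mul, Nat.cast_mul]
    at h1
  nlinarith

theorem prod_bound (hp : ∀ i j : Fin m, i ≠ j → IsUnit ((i.val : ZMod p) - (j.val : ZMod p)))
    (G : SimpleGraph (Fin m × ZMod p)) :
    (cp G : ℝ) * cp Gᶜ ≤ (p : ℝ) ^ 4 * (M m + 4 * (m : ℝ) ^ 3) := by
  have bd : ∀ (G : SimpleGraph (Fin m × ZMod p)) (ω ω' : Fin m → ZMod p) i,
      (∀ j, j ≠ i → ω j = ω' j) → (cp (trans G ω) : ℝ) - cp (trans G ω') ≤ m := by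
    intro G ω ω' i h
    have := cp_le_of_agree (trans G ω) (trans G ω') i (by
      intro u v hu hv
      simp [trans, h u hu, h v hv])
    rw [Fintype.card_fin] at this
    have : (cp (trans G ω) : ℝ) ≤ cp (trans G ω') + m := by exact_mod_cast this
    linarith
  have ub : ∀ (G : SimpleGraph (Fin m × ZMod p)),
      (𝔼 ω : Fin m → ZMod p, (cp (trans G ω) : ℝ)) ≤ (m : ℝ) ^ 2 := by
    intro G
    have : (𝔼 ω : Fin m → ZMod p, (cp (trans G ω) : ℝ)) ≤ 𝔼 _ω : Fin m → ZMod p, (m : ℝ) ^ 2 := by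
      refine expect_le_expect fun ω _ => ?_
      have := cp_le_sq (trans G ω)
      rw [Fintype.card_fin] at this
      exact_mod_cast this
    rwa [expect_const univ_nonempty] at this
  have lb : ∀ (G : SimpleGraph (Fin m × ZMod p)),
      0 ≤ (𝔼 ω : Fin m → ZMod p, (cp (trans G ω) : ℝ)) :=
    fun G => expect_nonneg fun _ _ => Nat.cast_nonneg _
  have hc := cov_bound (m : ℝ) m (fun ω => (cp (trans G ω) : ℝ)) (fun ω => (cp (trans Gᶜ ω) : ℝ))
    (bd G) (bd Gᶜ)
  have hM : (𝔼 ω : Fin m → ZMod p, (cp (trans G ω) : ℝ) * (cp (trans Gᶜ ω) : ℝ)) ≤ M m := by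
    have : (𝔼 ω : Fin m → ZMod p, (cp (trans G ω) : ℝ) * (cp (trans Gᶜ ω) : ℝ)) ≤
        𝔼 _ω : Fin m → ZMod p, (M m : ℝ) := by
      refine expect_le_expect fun ω _ => ?_
      rw [trans_compl]
      exact_mod_cast le_M (trans G ω)
    rwa [expect_const univ_nonempty] at this
  have a1 := avg_bound hp G
  have a2 := avg_bound hp Gᶜ
  have u1 := ub G
  have u2 := ub Gᶜ
  have l1 := lb G
  have l2 := lb Gᶜ
  set E1 := 𝔼 ω : Fin m → ZMod p, (cp (trans G ω) : ℝ)
  set E2 := 𝔼 ω : Fin m → ZMod p, (cp (trans Gᶜ ω) : ℝ)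
  have hm : (0 : ℝ) ≤ m := Nat.cast_nonneg _
  have hm2 : (m : ℝ) ^ 2 ≤ (m : ℝ) ^ 3 := by
    exact_mod_cast (show m ^ 2 ≤ m ^ 3 by
      rcases Nat.eq_zero_or_pos m with h | h
      · subst h; simp
      · exact Nat.pow_le_pow_right h (by norm_num))
  calc (cp G : ℝ) * cp Gᶜ ≤ ((p : ℝ) ^ 2 * (E1 + m)) * ((p : ℝ) ^ 2 * (E2 + m)) :=
        mul_le_mul a1 a2 (Nat.cast_nonneg _) (by positivity)
    _ = (p : ℝ) ^ 4 * (E1 * E2 + m * E1 + m * E2 + m ^ 2) := by ring
    _ ≤ (p : ℝ) ^ 4 * (M m + 4 * (m : ℝ) ^ 3) := by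
        apply mul_le_mul_of_nonneg_left _ (by positivity)
        have := mul_le_mul_of_nonneg_left u1 hm
        have := mul_le_mul_of_nonneg_left u2 hm
        nlinarith

theorem M_le (hp : ∀ i j : Fin m, i ≠ j → IsUnit ((i.val : ZMod p) - (j.val : ZMod p)))
    (n : ℕ) (hn : n ≤ m * p) : (M n : ℝ) ≤ (p : ℝ) ^ 4 * (M m + 4 * (m : ℝ) ^ 3) := by
  obtain ⟨G, hG⟩ := exists_M n
  obtain ⟨e⟩ : Nonempty (Fin n ↪ Fin m × ZMod p) :=
    Function.Embedding.nonempty_of_card_le (by simpa using hn)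
  have h1 : cp G ≤ cp (G.map e) :=
    cp_le_of_pull _ _ (fun _ => True) e (fun u v _ _ h => e.injective h) (by simp)
  have h2 : cp Gᶜ ≤ cp (G.map e)ᶜ :=
    cp_le_of_pull _ _ (fun _ => True) e (fun u v _ _ h => e.injective h) (by simp)
  refine le_trans ?_ (prod_bound hp (G.map e))
  rw [hG]
  exact_mod_cast Nat.mul_le_mul h1 h2

end design

theorem unit_of_factorial (m k : ℕ) (i j : Fin m) (hij : i ≠ j) :
    IsUnit ((i.val : ZMod (m.factorial * k + 1)) - (j.val : ZMod (m.factorial * k + 1))) := by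
  have key : ∀ d : ℕ, 0 < d → d ≤ m → IsUnit (d : ZMod (m.factorial * k + 1)) := by
    intro d h0 h1
    rw [ZMod.isUnit_iff_coprime]
    obtain ⟨c, hc⟩ := Nat.dvd_factorial h0 h1
    rw [hc, mul_assoc]
    simp
  rcases lt_or_gt_of_ne (Fin.val_ne_of_ne hij) with h | h
  · have := key (j.val - i.val) (by omega) (by omega)
    rw [Nat.cast_sub h.le] at this
    simpa using this.neg
  · have := key (i.val - j.val) (by omega) (by omega)
    rwa [Nat.cast_sub h.le] at this

theorem ratio_le (m : ℕ) (hm : 0 < m) (n : ℕ) (hn : 0 < n) :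
    (M n : ℝ) / (n : ℝ) ^ 4 ≤ (1 + (m * m.factorial + m : ℝ) / n) ^ 4 *
      ((M m : ℝ) / (m : ℝ) ^ 4 + 4 / m) := by
  have hf : 0 < m * m.factorial := Nat.mul_pos hm (Nat.factorial_pos m)
  set k := n / (m * m.factorial) + 1 with hk
  have h1 : n < m * m.factorial * k := by
    rw [hk, mul_comm]; exact Nat.lt_div_mul_add hf |>.trans_eq (by ring)
  have h2 : m * m.factorial * k ≤ n + m * m.factorial := by
    rw [hk, mul_add, mul_one]
    exact Nat.add_le_add_right (Nat.mul_div_le _ _) _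
  have : NeZero (m.factorial * k + 1) := ⟨by omega⟩
  have h3 := M_le (unit_of_factorial m k) n (by nlinarith)
  set p := m.factorial * k + 1 with hp
  have h4 : m * p ≤ n + (m * m.factorial + m) := by rw [hp]; nlinarith
  have h5 : (m : ℝ) * p ≤ n + (m * m.factorial + m) := by exact_mod_cast h4
  have hm' : (0 : ℝ) < m := by exact_mod_cast hm
  have hn' : (0 : ℝ) < n := by exact_mod_cast hn
  have h6 : (m : ℝ) * p / n ≤ 1 + (m * m.factorial + m : ℝ) / n := by
    rw [div_le_iff₀ hn', add_mul, div_mul_cancel₀ _ hn'.ne']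
    linarith
  calc (M n : ℝ) / (n : ℝ) ^ 4 ≤ (p : ℝ) ^ 4 * (M m + 4 * (m : ℝ) ^ 3) / (n : ℝ) ^ 4 := by
        gcongr
    _ = ((m : ℝ) * p / n) ^ 4 * ((M m : ℝ) / (m : ℝ) ^ 4 + 4 / m) := by
        field_simp
    _ ≤ _ := by gcongr

open Filter Topology in
theorem tendsto_ratio :
    ∃ L : ℝ, Tendsto (fun n : ℕ => (M n : ℝ) / (n : ℝ) ^ 4) atTop (𝓝 L) := by
  let b : ℕ → ℝ := fun m => (M (m + 1) : ℝ) / ((m + 1 : ℕ) : ℝ) ^ 4 + 4 / ((m + 1 : ℕ) : ℝ)
  have hb : BddBelow (Set.range b) := ⟨0, by rintro _ ⟨m, rfl⟩; positivity⟩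
  refine ⟨⨅ m, b m, tendsto_order.2 ⟨?_, ?_⟩⟩
  · intro c hc
    have t1 : Tendsto (fun n : ℕ => (⨅ m, b m) - 4 / (n : ℝ)) atTop (𝓝 ((⨅ m, b m) - 0)) :=
      tendsto_const_nhds.sub (tendsto_const_div_atTop_nhds_zero_nat 4)
    rw [sub_zero] at t1
    filter_upwards [(tendsto_order.1 t1).1 c hc, eventually_gt_atTop 0] with n h1 h2
    obtain ⟨k, rfl⟩ : ∃ k, n = k + 1 := ⟨n - 1, by omega⟩
    have := ciInf_le hb k
    simp only [b] at this h1 ⊢
    linarith
  · intro c hc
    obtain ⟨k, hk⟩ := exists_lt_of_ciInf_lt hc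
    have t1 : Tendsto (fun n : ℕ => (1 + (((k + 1 : ℕ) : ℝ) * (k + 1).factorial + (k + 1 : ℕ)) /
        (n : ℝ)) ^ 4 * b k) atTop (𝓝 ((1 + 0) ^ 4 * b k)) :=
      ((tendsto_const_nhds.add (tendsto_const_div_atTop_nhds_zero_nat _)).pow 4).mul
        tendsto_const_nhds
    rw [add_zero, one_pow, one_mul] at t1
    filter_upwards [(tendsto_order.1 t1).2 c hk, eventually_gt_atTop 0] with n h1 h2
    exact (ratio_le (k + 1) (Nat.succ_pos k) n h2).trans_lt h1

end Pool.Agent.P.MP_c18ddb_co
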